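import Pool.Agent.Run7.h788.OM.Br1
import Pool.Agent.Run7.h323.OM.BR2

set_option autoImplicit false

open NumberField

namespace Run7.h992.OM

/-- The character of a quadratic field is a primitive quadratic Dirichlet character modulo `|Δ_E|`. -/
theorem bridge (E : Type) [Field E] [NumberField E] (h : Module.finrank ℚ E = 2) :
    ∃ (_ : NeZero (discr E).natAbs) (χ : DirichletCharacter ℂ (discr E).natAbs), χ.IsPrimitive ∧
      χ ^ 2 = 1 ∧ χ ≠ 1 ∧ ∀ p : ℕ, p.Prime → χ p = (Run7.h788.OM.eta E p : ℂ) := by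
  obtain ⟨χ, h1, h2, h3, h4⟩ := Run7.h788.OM.exists_char (Run7.h323.OM.isFund_discr E h)
  refine ⟨⟨Int.natAbs_ne_zero.2 (discr_ne_zero E)⟩, χ, h1, h2, h3, fun p hp => ?_⟩
  rw [h4 p hp, Run7.h323.OM.eta_eq E h p hp]

end Run7.h992.OM
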