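import Pool.Agent.Run7.h992.OM.E

set_option autoImplicit false

open UpperHalfPlane MeasureTheory Complex Filter Topology
open scoped MatrixGroups

namespace Run7.h992.OM

open Run7.h323.OM (hk_mul hk_pow)

/-! ## The Euler product -/

variable {u : ℍ → ℂ} {lam : ℂ} {c : ℕ → ℂ}

theorem c_one (h : HM u lam c) : c 1 = 1 := by
  obtain ⟨z, hz⟩ := h.ne
  have h1 := h.hecke 1 le_rfl z
  rw [hk_one] at h1
  have h2 : (c 1 - 1) * u z = 0 := by linear_combination -h1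
  rcases mul_eq_zero.1 h2 with h3 | h3
  · exact sub_eq_zero.1 h3
  · exact absurd h3 hz

theorem c_mul (h : HM u lam c) {m n : ℕ} (hm : 1 ≤ m) (hn : 1 ≤ n) (hc : Nat.Coprime m n) :
    c (m * n) = c m * c n := by
  obtain ⟨z, hz⟩ := h.ne
  have h1 := hk_mul hm hn hc (oi_per h.oi) z
  have e1 : hk n u = fun w => c n * u w := funext (h.hecke n hn)
  rw [e1, hk_const_mul, h.hecke m hm, h.hecke (m * n) (Nat.mul_pos hm hn)] at h1
  have h2 : (c (m * n) - c m * c n) * u z = 0 := by linear_combination -h1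
  rcases mul_eq_zero.1 h2 with h3 | h3
  · exact sub_eq_zero.1 h3
  · exact absurd h3 hz

theorem c_pow (h : HM u lam c) {p : ℕ} (hp : p.Prime) (j : ℕ) :
    c (p ^ (j + 2)) = c p * c (p ^ (j + 1)) - c (p ^ j) := by
  obtain ⟨z, hz⟩ := h.ne
  have h1 := hk_pow hp (j + 1) (by omega) (oi_per h.oi) z
  have hpk : ∀ k : ℕ, 1 ≤ p ^ k := fun k => Nat.pos_of_ne_zero (pow_ne_zero _ hp.ne_zero)
  have e1 : hk (p ^ (j + 1)) u = fun w => c (p ^ (j + 1)) * u w := funext (h.hecke _ (hpk _))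
  rw [e1, hk_const_mul, h.hecke p hp.one_le, h.hecke _ (hpk _), Nat.add_sub_cancel,
    h.hecke _ (hpk _)] at h1
  have h2 : (c (p ^ (j + 2)) - (c p * c (p ^ (j + 1)) - c (p ^ j))) * u z = 0 := by
    have e : j + 1 + 1 = j + 2 := rfl
    rw [e] at h1
    linear_combination -h1
  rcases mul_eq_zero.1 h2 with h3 | h3
  · exact sub_eq_zero.1 h3
  · exact absurd h3 hz

theorem local_factor {a : ℕ → ℂ} {b x : ℂ} (h0 : a 0 = 1) (h1 : a 1 = b)
    (h2 : ∀ j, a (j + 2) = b * a (j + 1) - a j) (hs : Summable fun e => a e * x ^ e) :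
    ∑' e, a e * x ^ e = (1 - b * x + x ^ 2)⁻¹ := by
  set S := ∑' e, a e * x ^ e with hS
  have hs1 : Summable fun e => a (e + 1) * x ^ (e + 1) := (summable_nat_add_iff 1).2 hs
  have e1 : S = 1 + ∑' e, a (e + 1) * x ^ (e + 1) := by
    rw [hS, hs.tsum_eq_zero_add]
    simp [h0]
  have e2 : ∑' e, a (e + 1) * x ^ (e + 1) = b * x + ∑' e, a (e + 2) * x ^ (e + 2) := by
    rw [hs1.tsum_eq_zero_add]
    simp [h1]
  have e3 : ∑' e, a (e + 2) * x ^ (e + 2) =
      b * x * (∑' e, a (e + 1) * x ^ (e + 1)) - x ^ 2 * S := by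
    rw [hS, ← tsum_mul_left, ← tsum_mul_left, ← (hs1.mul_left _).tsum_sub (hs.mul_left _)]
    refine tsum_congr fun e => ?_
    rw [h2]
    ring
  have key : S * (1 - b * x + x ^ 2) = 1 := by
    have e4 : S = 1 + (b * x + (b * x * (S - 1) - x ^ 2 * S)) := by
      have e5 : ∑' e, a (e + 1) * x ^ (e + 1) = S - 1 := by rw [e1]; ring
      rw [← e5, ← e3, ← e2]
      exact e1
    linear_combination e4
  exact eq_inv_of_mul_eq_one_left key

theorem euler (h : HM u lam c) {q : ℕ} (χ : DirichletCharacter ℂ q) {s : ℂ} (hs0 : s ≠ 0) {F : ℂ}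
    (hs : HasSum (fun n : ℕ => c n * χ n / (n : ℂ) ^ s) F) :
    HasProd (fun p : Nat.Primes => (1 - c p * (χ (p : ℕ) * ((p : ℕ) : ℂ) ^ (-s)) +
      (χ (p : ℕ) * ((p : ℕ) : ℂ) ^ (-s)) ^ 2)⁻¹) F := by
  set f : ℕ → ℂ := fun n => c n * χ n / (n : ℂ) ^ s with hf
  have hf0 : f 0 = 0 := by
    simp [hf, Complex.zero_cpow hs0]
  have hf1 : f 1 = 1 := by
    simp [hf, c_one h]
  have hmul : ∀ {m n : ℕ}, Nat.Coprime m n → f (m * n) = f m * f n := by
    intro m n hmn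
    rcases Nat.eq_zero_or_pos m with rfl | hm
    · rw [zero_mul, hf0, zero_mul]
    rcases Nat.eq_zero_or_pos n with rfl | hn
    · rw [mul_zero, hf0, mul_zero]
    simp only [hf]
    rw [c_mul h hm hn hmn, Nat.cast_mul, map_mul, Nat.cast_mul, Complex.natCast_mul_natCast_cpow]
    ring
  have hP := EulerProduct.eulerProduct_hasProd hf1 hmul hs.summable.norm hf0
  rw [hs.tsum_eq] at hP
  have hterm : ∀ (p : Nat.Primes) (e : ℕ), f ((p : ℕ) ^ e) =
      c ((p : ℕ) ^ e) * (χ (p : ℕ) * ((p : ℕ) : ℂ) ^ (-s)) ^ e := by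
    intro p e
    simp only [hf]
    have e1 : (((p : ℕ) ^ e : ℕ) : ℂ) ^ s = ((((p : ℕ) : ℂ)) ^ s) ^ e := by
      rw [Nat.cast_pow, ← Complex.natCast_cpow_natCast_mul, Complex.cpow_nat_mul]
    rw [e1, Nat.cast_pow, map_pow, Complex.cpow_neg, mul_pow, inv_pow]
    ring
  have hfac : (fun p : Nat.Primes => ∑' e, f ((p : ℕ) ^ e)) = fun p : Nat.Primes =>
      (1 - c p * (χ (p : ℕ) * ((p : ℕ) : ℂ) ^ (-s)) +
      (χ (p : ℕ) * ((p : ℕ) : ℂ) ^ (-s)) ^ 2)⁻¹ := by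
    ext p
    have hsum : Summable fun e => c ((p : ℕ) ^ e) * (χ (p : ℕ) * ((p : ℕ) : ℂ) ^ (-s)) ^ e := by
      have h1 := hs.summable.comp_injective (Nat.pow_right_injective p.2.two_le)
      refine h1.congr fun e => ?_
      exact hterm p e
    simp only [hterm]
    exact local_factor (a := fun e => c ((p : ℕ) ^ e)) (by simp [c_one h]) (by simp)
      (fun j => c_pow h p.2 j) hsum
  rw [hfac] at hP
  exact hP

end Run7.h992.OM
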