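import Pool.Agent.Run7.h992.OM.Defs

set_option autoImplicit false

open UpperHalfPlane MeasureTheory Complex Filter Topology
open scoped MatrixGroups

namespace Run7.h992.OM

theorem k_symm (s : ℕ) (z w : ℍ) : k s z w = k s w z := by
  unfold k
  rw [dist_comm]

theorem k_formula (s : ℕ) (z w : ℍ) :
    k s z w = (4 * z.im * w.im / ‖(z : ℂ) - (starRingEnd ℂ) (w : ℂ)‖ ^ 2) ^ s := by
  unfold k
  rw [cosh_half_dist, Complex.dist_eq, div_pow, mul_pow, Real.sq_sqrt (by positivity), inv_div]
  congr 2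
  ring

theorem k_pos (s : ℕ) (z w : ℍ) : 0 < k s z w := by
  unfold k
  have := Real.cosh_pos (dist z w / 2)
  positivity

theorem k_le_one (s : ℕ) (z w : ℍ) : k s z w ≤ 1 := by
  unfold k
  have h := Real.one_le_cosh (dist z w / 2)
  refine pow_le_one₀ (by positivity) (inv_le_one_of_one_le₀ ?_)
  nlinarith

theorem k_lt_one {s : ℕ} (hs : s ≠ 0) {z w : ℍ} (h : z ≠ w) : k s z w < 1 := by
  unfold k
  have h0 : 0 < dist z w := dist_pos.2 h
  have h1 : 1 < Real.cosh (dist z w / 2) := Real.one_lt_cosh.2 (by positivity)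
  refine pow_lt_one₀ (by positivity) (inv_lt_one_of_one_lt₀ ?_) hs
  nlinarith

theorem dist_smul_GL (g : GL (Fin 2) ℝ) (z w : ℍ) : dist (g • z) (g • w) = dist z w := by
  have hdet : g.det.val = g 0 0 * g 1 1 - g 0 1 * g 1 0 := by
    have := Matrix.det_fin_two g.val
    simpa using this
  have h1 : dist ((g • z : ℍ) : ℂ) ((g • w : ℍ) : ℂ) =
      |g.det.val| * dist (z : ℂ) w / (‖denom g z‖ * ‖denom g w‖) := by
    rw [Complex.dist_eq, coe_smul, coe_smul, ← map_sub, norm_σ, Complex.dist_eq]
    have hz := denom_ne_zero g z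
    have hw := denom_ne_zero g w
    rw [div_sub_div _ _ hz hw, norm_div, norm_mul]
    congr 1
    have : num g z * denom g w - denom g z * num g w = ((g.det.val : ℝ) : ℂ) * ((z : ℂ) - w) := by
      rw [hdet]
      unfold num denom
      push_cast
      ring
    rw [this, norm_mul, Complex.norm_real, Real.norm_eq_abs]
  have h2 : Real.cosh (dist (g • z) (g • w)) = Real.cosh (dist z w) := by
    rw [cosh_dist, cosh_dist, h1, im_smul_eq_div_normSq, im_smul_eq_div_normSq]
    have hz : 0 < ‖denom g z‖ := norm_pos_iff.2 (denom_ne_zero g z)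
    have hw : 0 < ‖denom g w‖ := norm_pos_iff.2 (denom_ne_zero g w)
    have hd : 0 < |g.det.val| := abs_pos.2 (g.det_ne_zero)
    rw [Complex.normSq_eq_norm_sq, Complex.normSq_eq_norm_sq]
    have hz2 := z.im_pos
    have hw2 := w.im_pos
    congr 1
    field_simp
  exact Real.cosh_injOn (Set.mem_Ici.2 dist_nonneg) (Set.mem_Ici.2 dist_nonneg) h2

theorem k_smul (s : ℕ) (g : GL (Fin 2) ℝ) (z w : ℍ) : k s (g • z) (g • w) = k s z w := by
  unfold k
  rw [dist_smul_GL]

theorem k_cont (s : ℕ) : Continuous fun p : ℍ × ℍ => k s p.1 p.2 := by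
  unfold k
  refine Continuous.pow (Continuous.inv₀ (by fun_prop) fun p => ?_) s
  have := Real.cosh_pos (dist p.1 p.2 / 2)
  positivity

theorem k_compare (s : ℕ) (z w z' w' : ℍ) :
    k s z w ≤ (4 * Real.exp (dist z z' + dist w w')) ^ s * k s z' w' := by
  unfold k
  rw [← mul_pow]
  refine pow_le_pow_left₀ (by positivity) ?_ s
  have h1 : dist z' w' ≤ dist z w + (dist z z' + dist w w') := by
    have h2 := dist_triangle z' z w'
    have h3 := dist_triangle z w w'
    rw [dist_comm z' z] at h2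
    linarith
  have hc := Real.cosh_pos (dist z w / 2)
  have hc' := Real.cosh_pos (dist z' w' / 2)
  have h4 : Real.cosh (dist z' w' / 2) ≤
      2 * Real.exp ((dist z z' + dist w w') / 2) * Real.cosh (dist z w / 2) := by
    have h5 : Real.cosh (dist z' w' / 2) ≤ Real.exp (dist z' w' / 2) := by
      rw [Real.cosh_eq]
      have : Real.exp (-(dist z' w' / 2)) ≤ Real.exp (dist z' w' / 2) :=
        Real.exp_le_exp.2 (by linarith [dist_nonneg (x := z') (y := w')])
      linarith
    have h6 : Real.exp (dist z' w' / 2) ≤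
        Real.exp ((dist z z' + dist w w') / 2) * Real.exp (dist z w / 2) := by
      rw [← Real.exp_add]
      exact Real.exp_le_exp.2 (by linarith)
    have h7 : Real.exp (dist z w / 2) ≤ 2 * Real.cosh (dist z w / 2) := by
      rw [Real.cosh_eq]
      have := Real.exp_pos (-(dist z w / 2))
      linarith
    have h8 := Real.exp_pos ((dist z z' + dist w w') / 2)
    nlinarith
  have h9 : Real.cosh (dist z' w' / 2) ^ 2 ≤
      4 * Real.exp (dist z z' + dist w w') * Real.cosh (dist z w / 2) ^ 2 := by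
    have h10 : Real.exp (dist z z' + dist w w') = Real.exp ((dist z z' + dist w w') / 2) ^ 2 := by
      rw [← Real.exp_nat_mul]
      congr 1
      push_cast
      ring
    rw [h10]
    calc Real.cosh (dist z' w' / 2) ^ 2 ≤
        (2 * Real.exp ((dist z z' + dist w w') / 2) * Real.cosh (dist z w / 2)) ^ 2 :=
          pow_le_pow_left₀ hc'.le h4 2
      _ = _ := by ring
  rw [← div_eq_mul_inv, inv_le_iff_one_le_mul₀ (by positivity)]
  rw [div_mul_eq_mul_div, one_le_div (by positivity)]
  exact h9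

/-! ### integration on `ℍ` -/

/-- integration on `ℍ` in terms of integration on `ℂ` -/
theorem lintegral_ℍ (f : ℍ → ENNReal) (hf : Measurable f) :
    ∫⁻ w, f w = ∫⁻ z : ℂ in {z : ℂ | 0 < z.im}, ENNReal.ofReal (1 / z.im ^ 2) * f (ofComplex z) := by
  have hmp : MeasurePreserving UpperHalfPlane.coe ((volume : Measure ℂ).comap UpperHalfPlane.coe)
      ((volume : Measure ℂ).restrict (Set.range UpperHalfPlane.coe)) :=
    ⟨measurable_coe, by rw [measurableEmbedding_coe.map_comap]⟩
  have hr : Set.range UpperHalfPlane.coe = {z : ℂ | 0 < z.im} := by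
    ext z
    constructor
    · rintro ⟨w, rfl⟩
      exact w.im_pos
    · intro h
      exact ⟨⟨z, h⟩, rfl⟩
  rw [← hr, ← hmp.lintegral_comp_emb measurableEmbedding_coe, volume_def,
    lintegral_withDensity_eq_lintegral_mul _ _ hf]
  · refine lintegral_congr fun w => ?_
    rw [Pi.mul_apply, ofComplex_apply]
    congr 1
    rw [ENNReal.ofReal]
    congr 1
    ext
    have := w.im_pos
    rw [Real.coe_toNNReal _ (by positivity)]
    simp
  · have h1 : Continuous fun z : ℍ => ((1 / NNReal.mk z.im z.im_pos.le : NNReal) ^ 2) := by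
      refine .pow (.div₀ continuous_const ?_ ?_) _
      · exact continuous_im.subtype_mk _
      · exact fun x ↦ NNReal.ne_iff.mp x.im_ne_zero
    exact h1.measurable.coe_nnreal_ennreal

theorem k_int_I : Integrable (fun w => k 2 I w) := by
  refine ⟨((k_cont 2).comp (continuous_const.prodMk continuous_id)).aestronglyMeasurable, ?_⟩
  have hm : Measurable fun w : ℍ => ‖k 2 I w‖ₑ :=
    ((k_cont 2).comp (continuous_const.prodMk continuous_id)).measurable.enorm
  rw [HasFiniteIntegral, lintegral_ℍ _ hm]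
  have hg : Integrable (fun p : ℝ × ℝ => (1 + p.1 ^ 2)⁻¹ * (1 + p.2 ^ 2)⁻¹)
      ((volume : Measure ℝ).prod volume) :=
    Integrable.mul_prod integrable_inv_one_add_sq integrable_inv_one_add_sq
  have hg2 : Integrable (fun z : ℂ => 16 * ((1 + z.re ^ 2)⁻¹ * (1 + z.im ^ 2)⁻¹)) := by
    refine Integrable.const_mul ?_ _
    have := Complex.volume_preserving_equiv_real_prod.integrable_comp_emb
      Complex.measurableEquivRealProd.measurableEmbedding
      (g := fun p : ℝ × ℝ => (1 + p.1 ^ 2)⁻¹ * (1 + p.2 ^ 2)⁻¹)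
    exact this.2 hg
  refine lt_of_le_of_lt (lintegral_mono_ae ?_) (hg2.integrableOn (s := {z : ℂ | 0 < z.im})).2
  rw [ae_restrict_iff' (measurableSet_lt measurable_const Complex.measurable_im)]
  refine Eventually.of_forall fun z hz => ?_
  have hz' : 0 < z.im := hz
  have e : (ofComplex z : ℂ) = z := by rw [ofComplex_apply_of_im_pos hz']
  have e2 : (ofComplex z).im = z.im := by rw [← coe_im, e]
  rw [Real.enorm_of_nonneg (k_pos 2 I _).le, ← ENNReal.ofReal_mul (by positivity),
    Real.enorm_of_nonneg (by positivity)]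
  refine ENNReal.ofReal_le_ofReal ?_
  rw [k_formula, e, e2]
  have e3 : ‖((I : ℍ) : ℂ) - (starRingEnd ℂ) z‖ ^ 2 = z.re ^ 2 + (1 + z.im) ^ 2 := by
    rw [Complex.sq_norm, Complex.normSq_apply]
    simp
    ring
  rw [e3]
  rw [UpperHalfPlane.I_im, mul_one]
  have h1 : (1 + z.re ^ 2) ≤ z.re ^ 2 + (1 + z.im) ^ 2 := by nlinarith
  have h2 : (1 + z.im ^ 2) ≤ z.re ^ 2 + (1 + z.im) ^ 2 := by nlinarith [sq_nonneg z.re]
  have h3 : 1 / z.im ^ 2 * (4 * z.im / (z.re ^ 2 + (1 + z.im) ^ 2)) ^ 2 =
      16 * ((z.re ^ 2 + (1 + z.im) ^ 2)⁻¹ * (z.re ^ 2 + (1 + z.im) ^ 2)⁻¹) := by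
    field_simp
    ring
  rw [h3]
  exact mul_le_mul_of_nonneg_left (mul_le_mul (inv_anti₀ (by positivity) h1)
    (inv_anti₀ (by positivity) h2) (by positivity) (by positivity)) (by norm_num)

theorem exists_smul_eq_GL (z w : ℍ) : ∃ g : GL (Fin 2) ℝ, g • z = w :=
  MulAction.exists_smul_eq (GL (Fin 2) ℝ) z w

theorem k_int {s : ℕ} (hs : 2 ≤ s) (z : ℍ) : Integrable (fun w => k s z w) := by
  have h2 : Integrable (fun w => k 2 z w) := by
    obtain ⟨g, hg⟩ := exists_smul_eq_GL z I
    have h1 := (measurePreserving_smul g (volume : Measure ℍ)).integrable_comp_emb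
      (measurableEmbedding_const_smul g) (g := fun w => k 2 I w)
    have h3 := h1.2 k_int_I
    refine h3.congr (Eventually.of_forall fun w => ?_)
    show k 2 I (g • w) = k 2 z w
    rw [← hg, k_smul]
  refine h2.mono' ((k_cont s).comp (continuous_const.prodMk continuous_id)).aestronglyMeasurable
    (Eventually.of_forall fun w => ?_)
  rw [Real.norm_of_nonneg (k_pos s z w).le]
  unfold k
  have h := Real.one_le_cosh (dist z w / 2)
  exact pow_le_pow_of_le_one (by positivity) (inv_le_one_of_one_le₀ (by nlinarith)) hs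

theorem k_int_eq (s : ℕ) (z w : ℍ) : ∫ v, k s z v = ∫ v, k s w v := by
  obtain ⟨g, hg⟩ := exists_smul_eq_GL z w
  rw [← (measurePreserving_smul g (volume : Measure ℍ)).integral_comp
    (measurableEmbedding_const_smul g) (fun v => k s w v)]
  refine integral_congr_ae (Eventually.of_forall fun v => ?_)
  show k s z v = k s w (g • v)
  rw [← hg, k_smul]

end Run7.h992.OM
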