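import Mathlib

/-!
# Odd Hecke-Maass cusp forms for `SL₂(ℤ)`: definitions (project OM, MP_17f4cb_nt)
-/

set_option autoImplicit false

open UpperHalfPlane MeasureTheory Complex Filter Topology
open scoped MatrixGroups

namespace Run7.h992.OM

/-- the point-pair invariant `cosh (d(z,w)/2) ^ (-2 s)` -/
noncomputable def k (s : ℕ) (z w : ℍ) : ℝ := ((Real.cosh (dist z w / 2) ^ 2)⁻¹) ^ s

/-- the integral operator with the kernel `k s` (invariant measure on `ℍ`) -/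
noncomputable def K (s : ℕ) (u : ℍ → ℂ) (z : ℍ) : ℂ := ∫ w, (k s z w : ℂ) * u w

/-- `u` is invariant under `SL₂(ℤ)` and odd under `z ↦ -conj z` -/
structure OddInv (u : ℍ → ℂ) : Prop where
  inv : ∀ (g : SL(2, ℤ)) (z : ℍ), u (g • z) = u z
  odd : ∀ z : ℍ, u (UpperHalfPlane.J • z) = - u z

/-- `u` is bounded -/
def Bd (u : ℍ → ℂ) : Prop := ∃ C : ℝ, ∀ z, ‖u z‖ ≤ C

/-- the automorphic kernel for odd functions -/
noncomputable def kap (s : ℕ) (z w : ℍ) : ℝ :=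
  ∑' g : SL(2, ℤ), (k s z (g • w) - k s z (UpperHalfPlane.J • (g • w)))

/-- a Siegel domain -/
def Sg : Set ℍ := {z | |z.re| ≤ 1 / 2 ∧ 1 / 2 ≤ z.im}

/-- bounded measurable odd automorphic eigenfunctions of `K s` with eigenvalue `m` -/
structure IsEig (s : ℕ) (m : ℂ) (u : ℍ → ℂ) : Prop where
  oi : OddInv u
  meas : Measurable u
  bd : Bd u
  eig : ∀ z, K s u z = m * u z

/-- the Hecke operator `T_n`, normalised by `n ^ (-1/2)` -/
noncomputable def hk (n : ℕ) (u : ℍ → ℂ) (z : ℍ) : ℂ :=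
  ((Real.sqrt n : ℝ) : ℂ)⁻¹ * ∑ d ∈ n.divisors, ∑ b ∈ Finset.range d,
    u (ofComplex ((((n / d : ℕ) : ℂ) * (z : ℂ) + (b : ℂ)) / (d : ℂ)))

/-- `∂²/∂x² + ∂²/∂y²` of a function on the upper half plane -/
noncomputable def lapl (U : ℂ → ℂ) (z : ℂ) : ℂ :=
  deriv (deriv (fun t : ℝ => U (z + (t : ℂ)))) 0 +
    deriv (deriv (fun t : ℝ => U (z + (t : ℂ) * Complex.I))) 0

/-- odd Hecke-Maass cusp forms of level one, as functions on `ℍ`, with Laplace eigenvalue `lam` and Hecke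
eigenvalues `c n` -/
structure HM (u : ℍ → ℂ) (lam : ℂ) (c : ℕ → ℂ) : Prop where
  oi : OddInv u
  bd : Bd u
  ne : ∃ z, u z ≠ 0
  smooth : ContDiffOn ℝ 2 (fun z : ℂ => u (ofComplex z)) {z : ℂ | 0 < z.im}
  lap : ∀ z : ℂ, 0 < z.im →
    -((z.im : ℂ)) ^ 2 * lapl (fun z : ℂ => u (ofComplex z)) z = lam * u (ofComplex z)
  hecke : ∀ n : ℕ, 1 ≤ n → ∀ z, hk n u z = c n * u z

/-- `2 √y K_ν(2 π y)` -/
noncomputable def B (ν : ℂ) (y : ℝ) : ℂ :=
  (y : ℂ) ^ (ν + 1 / 2) * ∫ t in Set.Ioi (0 : ℝ),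
    ((Real.exp (-Real.pi * t - Real.pi * y ^ 2 / t) : ℝ) : ℂ) * (t : ℂ) ^ (-ν - 1)

end Run7.h992.OM
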