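import Pool.Agent.Run7.h992.OM.K2
import Pool.Agent.Run7.h323.OM.H2
import Pool.Agent.Run7.h143.OM.D

set_option autoImplicit false
set_option maxHeartbeats 400000

open UpperHalfPlane MeasureTheory Complex Filter Topology
open scoped MatrixGroups

namespace Run7.h992.OM

open Run7.h323.OM (hk_mul hk_pow hk_oddInv hk_meas hk_bd hk_K)
open Run7.h143.OM (K_smooth K_lapl)

/-! ## E: existence of a Hecke-Maass eigenform -/

/-- a commuting family of endomorphisms of a nonzero finite-dimensional complex space has a common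
eigenvector -/
theorem common_eig {V : Type*} [AddCommGroup V] [Module ℂ V] [FiniteDimensional ℂ V] [Nontrivial V]
    {ι : Type*} (T : ι → Module.End ℂ V) (hc : ∀ i j v, T i (T j v) = T j (T i v)) :
    ∃ v : V, v ≠ 0 ∧ ∀ i, ∃ c : ℂ, T i v = c • v := by
  classical
  let P : Set (Submodule ℂ V) := {F | F ≠ ⊥ ∧ ∀ i, ∀ v ∈ F, T i v ∈ F}
  have hP : P.Nonempty := ⟨⊤, top_ne_bot, fun i v _ => Submodule.mem_top⟩
  obtain ⟨F, ⟨hF0, hF1⟩, hmin⟩ := (wellFounded_lt (α := Submodule ℂ V)).has_min P hP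
  have hFn : Nontrivial F := Submodule.nontrivial_iff_ne_bot.2 hF0
  have key : ∀ i, ∃ c : ℂ, ∀ v ∈ F, T i v = c • v := by
    intro i
    obtain ⟨c, hcE⟩ := Module.End.exists_eigenvalue ((T i).restrict (hF1 i))
    obtain ⟨w, hw⟩ := hcE.exists_hasEigenvector
    refine ⟨c, ?_⟩
    let G : Submodule ℂ V := F ⊓ (T i).eigenspace c
    have hG0 : G ≠ ⊥ := by
      intro h
      have hw1 : T i (w : V) = c • (w : V) := by
        have := congrArg Subtype.val hw.apply_eq_smul
        simpa using this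
      have hwG : (w : V) ∈ G := ⟨w.2, Module.End.mem_eigenspace_iff.2 hw1⟩
      rw [h, Submodule.mem_bot] at hwG
      exact hw.2 (Subtype.ext hwG)
    have hG1 : ∀ j, ∀ v ∈ G, T j v ∈ G := by
      rintro j v ⟨hv1, hv2⟩
      refine ⟨hF1 j v hv1, Module.End.mem_eigenspace_iff.2 ?_⟩
      rw [hc i j v, Module.End.mem_eigenspace_iff.1 hv2, map_smul]
    have hGF : G = F := by
      by_contra hne
      exact hmin G ⟨hG0, hG1⟩ (lt_of_le_of_ne inf_le_left hne)
    intro v hv
    rw [← hGF] at hv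
    exact Module.End.mem_eigenspace_iff.1 hv.2
  obtain ⟨v, hv, hv0⟩ := Submodule.exists_mem_ne_zero_of_ne_bot hF0
  exact ⟨v, hv0, fun i => (key i).imp fun c h => h v hv⟩

theorem oi_per {u : ℍ → ℂ} (hu : OddInv u) : ∀ z : ℍ, u ((1 : ℝ) +ᵥ z) = u z :=
  Run7.h323.OM.oddInv_per hu

theorem K_const_mul (s : ℕ) (m : ℂ) (u : ℍ → ℂ) (z : ℍ) :
    K s (fun w => m * u w) z = m * K s u z := by
  unfold K
  rw [← integral_const_mul]
  congr 1
  ext w
  ring

theorem hk_const_mul (n : ℕ) (m : ℂ) (u : ℍ → ℂ) (z : ℍ) :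
    hk n (fun w => m * u w) z = m * hk n u z := by
  unfold hk
  simp only [← Finset.mul_sum]
  ring

theorem K_add {s : ℕ} (hs : 2 ≤ s) {u v : ℍ → ℂ} (hu : Measurable u) (hbu : Bd u)
    (hv : Measurable v) (hbv : Bd v) (z : ℍ) :
    K s (fun w => u w + v w) z = K s u z + K s v z := by
  unfold K
  rw [← integral_add (ku_int hs hu hbu z) (ku_int hs hv hbv z)]
  congr 1
  ext w
  ring

theorem hk_add (n : ℕ) (u v : ℍ → ℂ) (z : ℍ) :
    hk n (fun w => u w + v w) z = hk n u z + hk n v z := by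
  unfold hk
  simp only [Finset.sum_add_distrib]
  ring

theorem hk_one (u : ℍ → ℂ) (z : ℍ) : hk 1 u z = u z := by
  simp [hk]

/-- eigenfunctions of all `T_p` are eigenfunctions of all `T_n` -/
theorem hk_all {u : ℍ → ℂ} (hu : OddInv u)
    (hp : ∀ p : ℕ, p.Prime → ∃ c : ℂ, ∀ z, hk p u z = c * u z) (n : ℕ) (hn : 1 ≤ n) :
    ∃ c : ℂ, ∀ z, hk n u z = c * u z := by
  have hper := oi_per hu
  have hpow : ∀ (p : ℕ), p.Prime → ∀ j : ℕ, (∃ c : ℂ, ∀ z, hk (p ^ j) u z = c * u z) ∧
      ∃ c : ℂ, ∀ z, hk (p ^ (j + 1)) u z = c * u z := by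
    intro p hpp j
    induction j with
    | zero =>
      refine ⟨⟨1, fun z => ?_⟩, ?_⟩
      · rw [pow_zero, hk_one, one_mul]
      · simpa using hp p hpp
    | succ j ih =>
      refine ⟨ih.2, ?_⟩
      obtain ⟨⟨c0, h0⟩, ⟨c1, h1⟩⟩ := ih
      obtain ⟨c, hc⟩ := hp p hpp
      refine ⟨c * c1 - c0, fun z => ?_⟩
      have h := hk_pow hpp (j + 1) (by omega) hper z
      have e1 : hk (p ^ (j + 1)) u = fun w => c1 * u w := funext h1
      rw [e1, hk_const_mul, hc, Nat.add_sub_cancel, h0] at h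
      linear_combination -h
  induction n using Nat.recOnPosPrimePosCoprime with
  | prime_pow p j hpp hj => exact (hpow p hpp j).1
  | zero => omega
  | one => exact ⟨1, fun z => by rw [hk_one, one_mul]⟩
  | coprime a b ha hb hab iha ihb =>
    obtain ⟨ca, h1⟩ := iha (by omega)
    obtain ⟨cb, h2⟩ := ihb (by omega)
    refine ⟨ca * cb, fun z => ?_⟩
    rw [← hk_mul (by omega) (by omega) hab hper]
    have e1 : hk b u = fun w => cb * u w := funext h2
    rw [e1, hk_const_mul, h1]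
    ring

theorem lapl_const_mul (m : ℂ) (U : ℂ → ℂ) (z : ℂ) :
    lapl (fun w => m * U w) z = m * lapl U z := by
  have h1 : ∀ f : ℝ → ℂ, deriv (fun t => m * f t) = fun t => m * deriv f t := by
    intro f
    ext t
    exact deriv_const_mul_field m
  unfold lapl
  rw [h1 (fun t : ℝ => U (z + (t : ℂ))), h1 (fun t : ℝ => U (z + (t : ℂ) * Complex.I)), h1, h1]
  ring

theorem exists_HM_of (hE : ∃ s : ℕ, 6 ≤ s ∧ ∃ m : ℂ, m ≠ 0 ∧ (∃ u : ℍ → ℂ, u ≠ 0 ∧ IsEig s m u) ∧
    ∃ E : Submodule ℂ (ℍ → ℂ), FiniteDimensional ℂ E ∧ ∀ u, u ∈ E ↔ IsEig s m u) :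
    ∃ (u : ℍ → ℂ) (lam : ℂ) (c : ℕ → ℂ), HM u lam c := by
  obtain ⟨s, hs, m, hm, ⟨u0, hu0, hu1⟩, E, hfin, hE⟩ := hE
  have hs2 : 2 ≤ s := by omega
  have hs3 : 2 ≤ s + 1 := by omega
  -- the operators preserve `E`
  have hK : ∀ u ∈ E, K (s + 1) u ∈ E := by
    intro u hu
    have h := (hE u).1 hu
    refine (hE _).2 ⟨K_oddInv _ h.oi, (K_cont hs3 h.meas h.bd).measurable, K_bd hs3 h.meas h.bd,
      fun z => ?_⟩
    rw [K_comm hs2 hs3 h.meas h.bd]
    have e : K s u = fun w => m * u w := funext h.eig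
    rw [e, K_const_mul]
  have hH : ∀ p : ℕ, p.Prime → ∀ u ∈ E, hk p u ∈ E := by
    intro p hp u hu
    have h := (hE u).1 hu
    refine (hE _).2 ⟨hk_oddInv hp h.oi, hk_meas p h.meas, hk_bd p h.bd, fun z => ?_⟩
    rw [hk_K hs2 p h.meas h.bd]
    have e : K s u = fun w => m * u w := funext h.eig
    rw [e, hk_const_mul]
  let TK : Module.End ℂ E :=
    { toFun := fun u => ⟨K (s + 1) u.1, hK u.1 u.2⟩
      map_add' := by
        intro u v
        apply Subtype.ext
        ext z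
        have h1 := (hE u.1).1 u.2
        have h2 := (hE v.1).1 v.2
        exact K_add hs3 h1.meas h1.bd h2.meas h2.bd z
      map_smul' := by
        intro c u
        apply Subtype.ext
        ext z
        exact K_const_mul (s + 1) c u.1 z }
  let TH : {p : ℕ // p.Prime} → Module.End ℂ E := fun p =>
    { toFun := fun u => ⟨hk p.1 u.1, hH p.1 p.2 u.1 u.2⟩
      map_add' := by
        intro u v
        apply Subtype.ext
        ext z
        exact hk_add p.1 u.1 v.1 z
      map_smul' := by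
        intro c u
        apply Subtype.ext
        ext z
        exact hk_const_mul p.1 c u.1 z }
  let T : Option {p : ℕ // p.Prime} → Module.End ℂ E := fun o => o.elim TK TH
  have hc1 : ∀ p v, TK (TH p v) = TH p (TK v) := by
    intro p v
    apply Subtype.ext
    ext z
    have h := (hE v.1).1 v.2
    exact hk_K hs3 p.1 h.meas h.bd z
  have hc2 : ∀ p q v, TH p (TH q v) = TH q (TH p v) := by
    intro p q v
    by_cases hpq : p = q
    · rw [hpq]
    apply Subtype.ext
    ext z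
    have h := (hE v.1).1 v.2
    have hcop : Nat.Coprime p.1 q.1 := (Nat.coprime_primes p.2 q.2).2 fun h => hpq (Subtype.ext h)
    show hk p.1 (hk q.1 v.1) z = hk q.1 (hk p.1 v.1) z
    rw [hk_mul p.2.one_le q.2.one_le hcop (oi_per h.oi),
      hk_mul q.2.one_le p.2.one_le hcop.symm (oi_per h.oi), mul_comm]
  have hc : ∀ i j v, T i (T j v) = T j (T i v) := by
    rintro (_ | p) (_ | q) v
    · rfl
    · exact hc1 q v
    · exact (hc1 p v).symm
    · exact hc2 p q v
  have hnt : Nontrivial E := by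
    refine ⟨⟨⟨u0, (hE u0).2 hu1⟩, 0, fun h => hu0 ?_⟩⟩
    exact congrArg Subtype.val h
  obtain ⟨v, hv0, hv⟩ := common_eig T hc
  have hv1 := (hE v.1).1 v.2
  obtain ⟨c', hc'⟩ := hv none
  have hKv : ∀ z, K (s + 1) v.1 z = c' * v.1 z := by
    intro z
    exact congrFun (congrArg Subtype.val hc') z
  have hHv : ∀ p : ℕ, p.Prime → ∃ c : ℂ, ∀ z, hk p v.1 z = c * v.1 z := by
    intro p hp
    obtain ⟨c, hc⟩ := hv (some ⟨p, hp⟩)
    exact ⟨c, fun z => congrFun (congrArg Subtype.val hc) z⟩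
  have hall := hk_all hv1.oi hHv
  choose! c hc using hall
  have hve : ∀ z, v.1 z = m⁻¹ * K s v.1 z := by
    intro z
    rw [hv1.eig z]
    field_simp
  refine ⟨v.1, s ^ 2 * c' / m - s * (s - 1), c, hv1.oi, hv1.bd, ?_, ?_, ?_, hc⟩
  · by_contra hne
    push Not at hne
    exact hv0 (Subtype.ext (funext hne))
  · have h := K_smooth hs2 hv1.meas hv1.bd
    have h2 : ContDiffOn ℝ 2 (fun z : ℂ => m⁻¹ * K s v.1 (ofComplex z)) {z : ℂ | 0 < z.im} :=
      contDiffOn_const.mul h
    refine h2.congr fun z _ => ?_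
    exact hve _
  · intro z hz
    have h := K_lapl hs2 hv1.meas hv1.bd z hz
    have e : (fun z : ℂ => K s v.1 (ofComplex z)) = fun z => m * v.1 (ofComplex z) := by
      ext w
      exact hv1.eig _
    rw [e, lapl_const_mul, hv1.eig, hKv] at h
    have h3 : m * (-((z.im : ℂ)) ^ 2 * lapl (fun z : ℂ => v.1 (ofComplex z)) z) =
        m * ((s ^ 2 * c' / m - s * (s - 1)) * v.1 (ofComplex z)) := by
      have e2 : m * ((s ^ 2 * c' / m - s * (s - 1)) * v.1 (ofComplex z)) =
          (s ^ 2 * c' - m * (s * (s - 1))) * v.1 (ofComplex z) := by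
        field_simp
      rw [e2]
      linear_combination -h
    exact mul_left_cancel₀ hm h3

end Run7.h992.OM
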