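import Pool.Agent.Run7.h992.OM.E
import Pool.Agent.Run7.h323.OM.K4
import Pool.Agent.Run7.h355.OM.K3b
import Pool.Agent.Run7.h488.OM.K3c
import Pool.Agent.Run7.h360.OM.K6
import Pool.Agent.Run7.h788.OM.Tw

set_option autoImplicit false

open UpperHalfPlane MeasureTheory Complex Filter Topology
open scoped MatrixGroups

namespace Run7.h992.OM

/-- **Odd Hecke-Maass cusp forms of level one exist.** -/
theorem exists_HM : ∃ (u : ℍ → ℂ) (lam : ℂ) (c : ℕ → ℂ), HM u lam c := by
  refine exists_HM_of (Run7.h360.OM.exists_eig_of (fun hs z => k_int hs z)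
    (fun hs => Run7.h355.OM.kap_cont hs) (fun hs => Run7.h355.OM.kap_symm hs)
    (fun hs => Run7.h355.OM.kap_inv hs) (fun hs => Run7.h355.OM.kap_odd hs)
    (fun hs => Run7.h355.OM.kap_bdd hs)
    (Run7.h488.OM.kap_ne_of fun z w => Run7.h355.OM.k_summable (by norm_num) z w)
    Run7.h323.OM.unfold)

end Run7.h992.OM
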