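import Pool.Agent.Run7.h992.OM.K1

set_option autoImplicit false
set_option maxHeartbeats 400000

open UpperHalfPlane MeasureTheory Complex Filter Topology
open scoped MatrixGroups

namespace Run7.h992.OM

/-! ## K2: the operators `K s` commute -/

theorem k_meas (s : ℕ) (z : ℍ) : Measurable fun w => k s z w :=
  ((k_cont s).comp (continuous_const.prodMk continuous_id)).measurable

theorem ku_int {s : ℕ} (hs : 2 ≤ s) {u : ℍ → ℂ} (hm : Measurable u) (hb : Bd u) (z : ℍ) :
    Integrable fun w => (k s z w : ℂ) * u w := by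
  obtain ⟨C, hC⟩ := hb
  exact (k_int hs z).ofReal.mul_bdd hm.aestronglyMeasurable (Eventually.of_forall hC)

theorem K_bd {s : ℕ} (hs : 2 ≤ s) {u : ℍ → ℂ} (_hm : Measurable u) (hb : Bd u) : Bd (K s u) := by
  obtain ⟨C, hC⟩ := id hb
  have hC0 : 0 ≤ C := (norm_nonneg _).trans (hC I)
  refine ⟨C * ∫ w, k s I w, fun z => ?_⟩
  unfold K
  rw [k_int_eq s I z, ← integral_const_mul]
  refine norm_integral_le_of_norm_le ((k_int hs z).const_mul C) (Eventually.of_forall fun w => ?_)
  rw [norm_mul, Complex.norm_real, Real.norm_of_nonneg (k_pos s z w).le, mul_comm]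
  exact mul_le_mul_of_nonneg_right (hC w) (k_pos s z w).le

theorem K_cont {s : ℕ} (hs : 2 ≤ s) {u : ℍ → ℂ} (hm : Measurable u) (hb : Bd u) :
    Continuous (K s u) := by
  obtain ⟨C, hC⟩ := id hb
  have hC0 : 0 ≤ C := (norm_nonneg _).trans (hC I)
  rw [continuous_iff_continuousAt]
  intro z0
  unfold K
  refine continuousAt_of_dominated (bound := fun w => C * ((4 * Real.exp 1) ^ s * k s z0 w))
    (Eventually.of_forall fun z => ((k_meas s z).complex_ofReal.mul hm).aestronglyMeasurable) ?_
    (((k_int hs z0).const_mul _).const_mul C) (Eventually.of_forall fun w => ?_)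
  · filter_upwards [Metric.ball_mem_nhds z0 one_pos] with z hz
    refine Eventually.of_forall fun w => ?_
    rw [norm_mul, Complex.norm_real, Real.norm_of_nonneg (k_pos s z w).le, mul_comm]
    refine mul_le_mul (hC w) ?_ (k_pos s z w).le hC0
    refine (k_compare s z w z0 w).trans (mul_le_mul_of_nonneg_right ?_ (k_pos s z0 w).le)
    rw [dist_self, add_zero]
    refine pow_le_pow_left₀ (by positivity) ?_ s
    have : Real.exp (dist z z0) ≤ Real.exp 1 := Real.exp_le_exp.2 (Metric.mem_ball.1 hz).le
    linarith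
  · have h0 : Continuous fun z : ℍ => (z, w) := continuous_id.prodMk continuous_const
    have h1 := (Complex.continuous_ofReal.comp ((k_cont s).comp h0)).mul
      (continuous_const (y := u w))
    simp only [Function.comp_def] at h1
    exact h1.continuousAt

/-- change of variables (invariance of the measure and of `k`) -/
theorem K_smul (s : ℕ) (g : GL (Fin 2) ℝ) (u : ℍ → ℂ) (z : ℍ) :
    K s (fun w => u (g • w)) z = K s u (g • z) := by
  unfold K
  have h := integral_smul_eq_self (μ := (volume : Measure ℍ))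
    (fun w => (k s (g • z) w : ℂ) * u w) (g := g)
  rw [← h]
  refine integral_congr_ae (Eventually.of_forall fun w => ?_)
  simp only [k_smul]

theorem K_congr (s : ℕ) {u v : ℍ → ℂ} (h : ∀ z, u z = v z) (z : ℍ) : K s u z = K s v z := by
  have : u = v := funext h
  rw [this]

theorem K_neg (s : ℕ) (u : ℍ → ℂ) (z : ℍ) : K s (fun w => - u w) z = - K s u z := by
  unfold K
  rw [← integral_neg]
  refine integral_congr_ae (Eventually.of_forall fun w => ?_)
  show (k s z w : ℂ) * (- u w) = -((k s z w : ℂ) * u w)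
  ring

theorem K_oddInv (s : ℕ) {u : ℍ → ℂ} (hu : OddInv u) : OddInv (K s u) where
  inv g z := by
    show K s u ((g : GL (Fin 2) ℝ) • z) = K s u z
    rw [← K_smul]
    exact K_congr s (fun w => hu.inv g w) z
  odd z := by
    rw [← K_smul, ← K_neg]
    exact K_congr s (fun w => hu.odd w) z

/-- two points are exchanged by an element of `GL₂(ℝ)` -/
theorem exists_swap (z w : ℍ) : ∃ g : GL (Fin 2) ℝ, g • z = w ∧ g • w = z := by
  set c : ℝ := z.im + w.im with hc
  set a : ℝ := z.re * w.im + w.re * z.im with ha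
  set b : ℝ := c * (z.re * w.re - z.im * w.im) - a * (z.re + w.re) with hb
  have hz := z.im_pos
  have hw := w.im_pos
  have hdet : (!![a, b; c, -a] : Matrix (Fin 2) (Fin 2) ℝ).det =
      z.im * w.im * ((z.re - w.re) ^ 2 + (z.im + w.im) ^ 2) := by
    rw [Matrix.det_fin_two_of, hb, ha, hc]
    ring
  have hpos : 0 < (!![a, b; c, -a] : Matrix (Fin 2) (Fin 2) ℝ).det := by
    rw [hdet]
    have : 0 < (z.im + w.im) ^ 2 := by positivity
    have := sq_nonneg (z.re - w.re)
    positivity
  set g : GL (Fin 2) ℝ := Matrix.GeneralLinearGroup.mkOfDetNeZero !![a, b; c, -a] hpos.ne' with hg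
  have hgd : 0 < g.det.val := hpos
  have key : ∀ p q : ℍ, (a : ℂ) * (p + q) + b - c * (p * q) = 0 → g • p = q := by
    intro p q h
    have hden := denom_ne_zero g p
    rw [← coe_inj, coe_smul_of_det_pos hgd, div_eq_iff hden]
    have e1 : num g p = a * (p : ℂ) + b := by
      simp [num, hg, Matrix.GeneralLinearGroup.mkOfDetNeZero]
    have e2 : denom g p = c * (p : ℂ) - a := by
      simp [denom, hg, Matrix.GeneralLinearGroup.mkOfDetNeZero]
      ring
    rw [e1, e2]
    linear_combination h
  have hrel : (a : ℂ) * ((z : ℂ) + w) + b - c * ((z : ℂ) * w) = 0 := by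
    apply Complex.ext
    · simp
      rw [hb]
      ring
    · simp
      rw [ha, hc]
      ring
  refine ⟨g, key z w hrel, key w z ?_⟩
  linear_combination hrel

theorem kk_int {s t : ℕ} (hs : 2 ≤ s) (z v : ℍ) :
    Integrable fun w => k s z w * k t w v := by
  refine (k_int hs z).mul_bdd (c := 1) ?_ (Eventually.of_forall fun w => ?_)
  · exact ((k_cont t).comp (continuous_id.prodMk continuous_const)).aestronglyMeasurable
  · rw [Real.norm_of_nonneg (k_pos t w v).le]
    exact k_le_one t w v

theorem kk_comm (s t : ℕ) (z v : ℍ) :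
    ∫ w, k s z w * k t w v = ∫ w, k t z w * k s w v := by
  obtain ⟨g, h1, h2⟩ := exists_swap z v
  have h := integral_smul_eq_self (μ := (volume : Measure ℍ))
    (fun w => k t z w * k s w v) (g := g)
  rw [← h]
  refine integral_congr_ae (Eventually.of_forall fun w => ?_)
  simp only
  have e1 : k t z (g • w) = k t w v := by
    rw [← h2, k_smul, k_symm]
  have e2 : k s (g • w) v = k s z w := by
    rw [← h1, k_smul, k_symm]
  rw [e1, e2, mul_comm]

theorem K_K {s t : ℕ} (hs : 2 ≤ s) (ht : 2 ≤ t) {u : ℍ → ℂ} (hm : Measurable u) (hb : Bd u)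
    (z : ℍ) : K s (K t u) z = ∫ v, ((∫ w, k s z w * k t w v : ℝ) : ℂ) * u v := by
  obtain ⟨C, hC⟩ := id hb
  have hC0 : 0 ≤ C := (norm_nonneg _).trans (hC I)
  have hmeas : AEStronglyMeasurable
      (fun p : ℍ × ℍ => (k s z p.1 : ℂ) * ((k t p.1 p.2 : ℂ) * u p.2))
      ((volume : Measure ℍ).prod volume) := by
    have m1 : Measurable fun p : ℍ × ℍ => k s z p.1 :=
      ((k_cont s).comp (continuous_const.prodMk continuous_fst)).measurable
    have m2 : Measurable fun p : ℍ × ℍ => k t p.1 p.2 := (k_cont t).measurable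
    exact (m1.complex_ofReal.mul (m2.complex_ofReal.mul
      (hm.comp measurable_snd))).aestronglyMeasurable
  have hsec : ∀ w : ℍ, Integrable (fun v : ℍ => (k s z w : ℂ) * ((k t w v : ℂ) * u v)) := by
    intro w
    have h := (ku_int ht hm hb w).const_mul ((k s z w : ℂ))
    exact h
  have hint : Integrable (fun p : ℍ × ℍ => (k s z p.1 : ℂ) * ((k t p.1 p.2 : ℂ) * u p.2))
      ((volume : Measure ℍ).prod volume) := by
    rw [integrable_prod_iff hmeas]
    have hm2 : AEStronglyMeasurable (fun w : ℍ => ∫ v, ‖(k s z w : ℂ) * ((k t w v : ℂ) * u v)‖)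
        (volume : Measure ℍ) := by
      have h := hmeas.norm.integral_prod_right'
      exact h
    refine ⟨Eventually.of_forall fun w => hsec w, ?_⟩
    refine ((k_int hs z).const_mul (C * ∫ w, k t I w)).mono' hm2 (Eventually.of_forall fun w => ?_)
    · rw [Real.norm_of_nonneg (integral_nonneg fun _ => norm_nonneg _)]
      have : ∀ v, ‖(k s z w : ℂ) * ((k t w v : ℂ) * u v)‖ ≤ (C * k s z w) * k t w v := by
        intro v
        rw [norm_mul, norm_mul, Complex.norm_real, Complex.norm_real,
          Real.norm_of_nonneg (k_pos s z w).le, Real.norm_of_nonneg (k_pos t w v).le]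
        have h4 : 0 ≤ k s z w * k t w v := (mul_pos (k_pos s z w) (k_pos t w v)).le
        calc k s z w * (k t w v * ‖u v‖) = (k s z w * k t w v) * ‖u v‖ := by ring
          _ ≤ (k s z w * k t w v) * C := mul_le_mul_of_nonneg_left (hC v) h4
          _ = (C * k s z w) * k t w v := by ring
      calc ∫ v, ‖(k s z w : ℂ) * ((k t w v : ℂ) * u v)‖ ≤ ∫ v, (C * k s z w) * k t w v :=
            integral_mono_of_nonneg (Eventually.of_forall fun _ => norm_nonneg _)
              ((k_int ht w).const_mul _) (Eventually.of_forall this)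
        _ = C * (∫ v, k t I v) * k s z w := by
            rw [integral_const_mul, k_int_eq t w I]
            ring
  have h1 : K s (K t u) z = ∫ w, ∫ v, (k s z w : ℂ) * ((k t w v : ℂ) * u v) := by
    have e : ∀ w : ℍ, (k s z w : ℂ) * K t u w = ∫ v, (k s z w : ℂ) * ((k t w v : ℂ) * u v) := by
      intro w
      rw [integral_const_mul]
      rfl
    show ∫ w, (k s z w : ℂ) * K t u w = _
    simp only [e]
  have h2 : ∫ w, ∫ v, (k s z w : ℂ) * ((k t w v : ℂ) * u v) =
      ∫ v, ∫ w, (k s z w : ℂ) * ((k t w v : ℂ) * u v) :=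
    integral_integral_swap (f := fun w v => (k s z w : ℂ) * ((k t w v : ℂ) * u v)) hint
  have h3 : ∀ v : ℍ, ∫ w, (k s z w : ℂ) * ((k t w v : ℂ) * u v) =
      ((∫ w, k s z w * k t w v : ℝ) : ℂ) * u v := by
    intro v
    have e : ∀ w : ℍ, (k s z w : ℂ) * ((k t w v : ℂ) * u v) =
        ((k s z w * k t w v : ℝ) : ℂ) * u v := by
      intro w
      push_cast
      ring
    simp only [e]
    rw [integral_mul_const, integral_complex_ofReal]
  rw [h1, h2]
  simp only [h3]

theorem K_comm {s t : ℕ} (hs : 2 ≤ s) (ht : 2 ≤ t) {u : ℍ → ℂ} (hm : Measurable u) (hb : Bd u)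
    (z : ℍ) : K s (K t u) z = K t (K s u) z := by
  rw [K_K hs ht hm hb, K_K ht hs hm hb]
  simp only [kk_comm s t]

end Run7.h992.OM
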